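import Mathlib

/-!
# A test function for the backward exploration of the hard-core Glauber dynamics
-/

set_option autoImplicit false
set_option linter.unusedSectionVars false
set_option linter.unusedVariables false

open Finset

namespace Pool.Agent.H999R2.HC

variable {V : Type*} [Fintype V] [DecidableEq V] (G : SimpleGraph V) [DecidableRel G.Adj]

/-- adjacency indicator -/
def adj (x y : V) : ℝ := if G.Adj x y then 1 else 0

lemma adj_nonneg (x y : V) : 0 ≤ adj G x y := by unfold adj; split_ifs <;> norm_num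

lemma adj_symm (x y : V) : adj G x y = adj G y x := by
  unfold adj; simp only [G.adj_comm]

lemma adj_self (x : V) : adj G x x = 0 := by unfold adj; simp

lemma adj_sq (x y : V) : adj G x y * adj G x y = adj G x y := by
  unfold adj; split_ifs <;> norm_num

/-- number of neighbours of `z` in `A` -/
def nb (A : Finset V) (z : V) : ℝ := ∑ x ∈ A, adj G z x

/-- number of common neighbours -/
def cod (x y : V) : ℝ := ∑ z, adj G z x * adj G z y

lemma cod_nonneg (x y : V) : 0 ≤ cod G x y :=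
  Finset.sum_nonneg fun z _ => mul_nonneg (adj_nonneg G _ _) (adj_nonneg G _ _)

lemma cod_symm (x y : V) : cod G x y = cod G y x := by
  unfold cod; exact Finset.sum_congr rfl fun z _ => mul_comm _ _

lemma nb_nonneg (A : Finset V) (z : V) : 0 ≤ nb G A z :=
  Finset.sum_nonneg fun _ _ => adj_nonneg G _ _

lemma nb_univ (z : V) : nb G univ z = G.degree z := by
  unfold nb adj
  rw [Finset.sum_boole]
  congr 1
  rw [← SimpleGraph.card_neighborFinset_eq_degree]
  congr 1
  ext y; simp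

lemma nb_mono {A B : Finset V} (h : A ⊆ B) (z : V) : nb G A z ≤ nb G B z :=
  Finset.sum_le_sum_of_subset_of_nonneg h fun _ _ _ => adj_nonneg G _ _

/-- interaction kernel -/
def ker (c₁ c₂ : ℝ) (x y : V) : ℝ := c₁ * adj G x y + c₂ * (if x = y then 0 else cod G x y)

variable (c₁ c₂ : ℝ)

lemma ker_symm (x y : V) : ker G c₁ c₂ x y = ker G c₁ c₂ y x := by
  unfold ker; rw [adj_symm G x y, cod_symm G x y]; simp only [eq_comm]

lemma ker_self (x : V) : ker G c₁ c₂ x x = 0 := by unfold ker; simp [adj_self]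

lemma ker_nonneg (h₁ : 0 ≤ c₁) (h₂ : 0 ≤ c₂) (x y : V) : 0 ≤ ker G c₁ c₂ x y := by
  unfold ker
  have := adj_nonneg G x y
  have := cod_nonneg G x y
  split_ifs <;> positivity

/-- bilinear sum of the kernel -/
def Q (A B : Finset V) : ℝ := ∑ x ∈ A, ∑ y ∈ B, ker G c₁ c₂ x y

/-- the test function -/
noncomputable def hf (A : Finset V) : ℝ := A.card - Q G c₁ c₂ A A / 2

lemma Q_symm (A B : Finset V) : Q G c₁ c₂ A B = Q G c₁ c₂ B A := by
  unfold Q; rw [Finset.sum_comm]
  exact Finset.sum_congr rfl fun x _ => Finset.sum_congr rfl fun y _ => ker_symm G c₁ c₂ _ _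

lemma Q_union_left {A B C : Finset V} (h : Disjoint A B) :
    Q G c₁ c₂ (A ∪ B) C = Q G c₁ c₂ A C + Q G c₁ c₂ B C := by
  unfold Q; exact Finset.sum_union h

lemma hf_union {B R : Finset V} (h : Disjoint B R) :
    hf G c₁ c₂ (B ∪ R) = hf G c₁ c₂ B + R.card - Q G c₁ c₂ R B - Q G c₁ c₂ R R / 2 := by
  unfold hf
  rw [Finset.card_union_of_disjoint h, Q_union_left G c₁ c₂ h, Q_symm G c₁ c₂ B (B ∪ R),
    Q_symm G c₁ c₂ R (B ∪ R), Q_union_left G c₁ c₂ h, Q_union_left G c₁ c₂ h,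
    Q_symm G c₁ c₂ B R]
  push_cast
  ring

lemma hf_erase {A : Finset V} {x : V} (hx : x ∈ A) :
    hf G c₁ c₂ A = hf G c₁ c₂ (A.erase x) + 1 - ∑ y ∈ A, ker G c₁ c₂ x y := by
  have h : Disjoint (A.erase x) {x} := by simp
  have h1 : A.erase x ∪ {x} = A := by
    ext y; by_cases hy : y = x
    · subst hy; simp [hx]
    · simp [hy]
  have h2 := hf_union G c₁ c₂ h
  rw [h1] at h2
  rw [h2]
  have h3 : Q G c₁ c₂ {x} (A.erase x) = ∑ y ∈ A, ker G c₁ c₂ x y := by
    unfold Q; simp only [Finset.sum_singleton]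
    rw [← Finset.add_sum_erase A _ hx, ker_self]; ring
  have h4 : Q G c₁ c₂ {x} {x} = 0 := by unfold Q; simp [ker_self]
  rw [h3, h4]; simp

section bounds

variable {Δ : ℕ} (hΔ : 2 ≤ Δ) (hdeg : ∀ x, G.degree x ≤ Δ)

include hdeg

lemma nb_le (A : Finset V) (z : V) : nb G A z ≤ Δ := by
  refine (nb_mono G (Finset.subset_univ A) z).trans ?_
  rw [nb_univ]; exact_mod_cast hdeg z

lemma cod_sum_le (A : Finset V) (x : V) : ∑ y ∈ A, cod G x y ≤ (Δ : ℝ) * Δ := by
  unfold cod
  rw [Finset.sum_comm]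
  calc ∑ z, ∑ y ∈ A, adj G z x * adj G z y = ∑ z, adj G x z * nb G A z := by
        refine Finset.sum_congr rfl fun z _ => ?_
        rw [← Finset.mul_sum, adj_symm G z x]; rfl
    _ ≤ ∑ z, adj G x z * Δ := Finset.sum_le_sum fun z _ =>
        mul_le_mul_of_nonneg_left (nb_le G hdeg A z) (adj_nonneg G _ _)
    _ = nb G univ x * Δ := by rw [← Finset.sum_mul]; rfl
    _ ≤ (Δ : ℝ) * Δ := mul_le_mul_of_nonneg_right (nb_le G hdeg univ x) (Nat.cast_nonneg _)

lemma ker_sum_le (h₁ : 0 ≤ c₁) (h₂ : 0 ≤ c₂) (A : Finset V) (x : V) :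
    ∑ y ∈ A, ker G c₁ c₂ x y ≤ c₁ * Δ + c₂ * (Δ * Δ) := by
  unfold ker
  rw [Finset.sum_add_distrib, ← Finset.mul_sum, ← Finset.mul_sum]
  have e1 : ∑ y ∈ A, adj G x y ≤ Δ := nb_le G hdeg A x
  have e2 : ∑ y ∈ A, (if x = y then (0:ℝ) else cod G x y) ≤ (Δ : ℝ) * Δ := by
    refine le_trans (Finset.sum_le_sum fun y _ => ?_) (cod_sum_le G hdeg A x)
    split_ifs
    · exact cod_nonneg G _ _
    · exact le_rfl
  gcongr

omit hdeg in
lemma sum_cod_offdiag (A : Finset V) :
    ∑ x ∈ A, ∑ y ∈ A, (if x = y then (0:ℝ) else cod G x y) =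
      ∑ z, nb G A z * (nb G A z - 1) := by
  have h1 : ∀ x ∈ A, ∑ y ∈ A, (if x = y then (0:ℝ) else cod G x y) =
      ∑ y ∈ A, cod G x y - cod G x x := by
    intro x hx
    rw [← Finset.add_sum_erase A (fun y => if x = y then (0:ℝ) else cod G x y) hx,
      ← Finset.add_sum_erase A (fun y => cod G x y) hx]
    simp only [if_true]
    have : ∑ y ∈ A.erase x, (if x = y then (0:ℝ) else cod G x y) =
        ∑ y ∈ A.erase x, cod G x y := by
      refine Finset.sum_congr rfl fun y hy => ?_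
      rw [if_neg]
      exact fun h => (Finset.mem_erase.1 hy).1 h.symm
    rw [this]; ring
  rw [Finset.sum_congr rfl h1, Finset.sum_sub_distrib]
  have h2 : ∑ x ∈ A, ∑ y ∈ A, cod G x y = ∑ z, nb G A z * nb G A z := by
    unfold cod nb
    simp_rw [Finset.sum_mul_sum]
    rw [Finset.sum_congr rfl fun x _ => Finset.sum_comm, Finset.sum_comm]
  have h3 : ∑ x ∈ A, cod G x x = ∑ z, nb G A z := by
    unfold cod nb
    rw [Finset.sum_comm]
    exact Finset.sum_congr rfl fun z _ => Finset.sum_congr rfl fun x _ => adj_sq G _ _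
  rw [h2, h3, ← Finset.sum_sub_distrib]
  exact Finset.sum_congr rfl fun z _ => by ring

omit hdeg in
lemma sum_nbhd_compl (A : Finset V) :
    ∑ x ∈ A, ∑ y ∈ G.neighborFinset x \ A, (nb G A y - 1) =
      ∑ y ∈ Aᶜ, nb G A y * (nb G A y - 1) := by
  have h1 : ∀ x ∈ A, ∑ y ∈ G.neighborFinset x \ A, (nb G A y - 1) =
      ∑ y ∈ Aᶜ, adj G y x * (nb G A y - 1) := by
    intro x _
    have : G.neighborFinset x \ A = Aᶜ.filter (fun y => G.Adj y x) := by
      ext y; simp [G.adj_comm, and_comm]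
    rw [this, Finset.sum_filter]
    refine Finset.sum_congr rfl fun y _ => ?_
    unfold adj; split_ifs <;> simp
  rw [Finset.sum_congr rfl h1, Finset.sum_comm]
  refine Finset.sum_congr rfl fun y _ => ?_
  rw [← Finset.sum_mul]; rfl

omit hdeg in
lemma card_nbhd (A : Finset V) (x : V) :
    ((G.neighborFinset x \ A).card : ℝ) = G.degree x - nb G A x := by
  have h1 : nb G A x = ((G.neighborFinset x ∩ A).card : ℝ) := by
    unfold nb adj
    rw [Finset.sum_boole]
    congr 2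
    ext y; simp [and_comm]
  have h2 := Finset.card_sdiff_add_card_inter (G.neighborFinset x) A
  rw [SimpleGraph.card_neighborFinset_eq_degree] at h2
  rw [h1, ← h2]; push_cast; ring

omit hdeg in
lemma erase_union_nbhd (A : Finset V) (x : V) :
    A.erase x ∪ G.neighborFinset x = A.erase x ∪ (G.neighborFinset x \ A) := by
  ext y
  by_cases hy : y = x
  · subst hy; simp
  · simp only [Finset.mem_union, Finset.mem_erase, ne_eq, hy, not_false_eq_true, true_and,
      Finset.mem_sdiff]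
    tauto

omit hdeg in
lemma disj_erase_nbhd (A : Finset V) (x : V) :
    Disjoint (A.erase x) (G.neighborFinset x \ A) := by
  rw [Finset.disjoint_left]
  intro y hy hy'
  exact (Finset.mem_sdiff.1 hy').2 (Finset.mem_erase.1 hy).2

omit hdeg in
lemma Q_nbhd_erase (h₁ : 0 ≤ c₁) (h₂ : 0 ≤ c₂) (A : Finset V) {x : V} (hx : x ∈ A) :
    c₁ * ∑ y ∈ G.neighborFinset x \ A, (nb G A y - 1) ≤
      Q G c₁ c₂ (G.neighborFinset x \ A) (A.erase x) := by
  unfold Q
  rw [Finset.mul_sum]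
  refine Finset.sum_le_sum fun y hy => ?_
  have hyx : adj G y x = 1 := by
    have : G.Adj x y := by simpa using (Finset.mem_sdiff.1 hy).1
    unfold adj; rw [if_pos this.symm]
  have h1 : nb G A y - 1 = ∑ z ∈ A.erase x, adj G y z := by
    unfold nb; rw [← Finset.add_sum_erase A _ hx, hyx]; ring
  rw [h1, Finset.mul_sum]
  refine Finset.sum_le_sum fun z _ => ?_
  unfold ker
  have := cod_nonneg G y z
  split_ifs <;> nlinarith [mul_nonneg h₂ this]

omit hdeg in
lemma Q_nbhd_self (h₁ : 0 ≤ c₁) (h₂ : 0 ≤ c₂) (A : Finset V) (x : V) :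
    c₂ * (((G.neighborFinset x \ A).card : ℝ) * ((G.neighborFinset x \ A).card - 1)) ≤
      Q G c₁ c₂ (G.neighborFinset x \ A) (G.neighborFinset x \ A) := by
  set R := G.neighborFinset x \ A with hR
  have hadj : ∀ y ∈ R, adj G x y = 1 := by
    intro y hy
    have : G.Adj x y := by simpa using (Finset.mem_sdiff.1 hy).1
    unfold adj; rw [if_pos this]
  have key : ∀ y ∈ R, c₂ * ((R.card : ℝ) - 1) ≤ ∑ z ∈ R, ker G c₁ c₂ y z := by
    intro y hy
    rw [← Finset.add_sum_erase R _ hy, ker_self, zero_add]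
    have h1 : ((R.erase y).card : ℝ) = R.card - 1 := by
      rw [Finset.card_erase_of_mem hy, Nat.cast_sub (Finset.card_pos.2 ⟨y, hy⟩)]; simp
    rw [← h1, mul_comm, ← nsmul_eq_mul, ← Finset.sum_const]
    refine Finset.sum_le_sum fun z hz => ?_
    have hz' := Finset.mem_erase.1 hz
    unfold ker
    rw [if_neg (fun h => hz'.1 h.symm)]
    have h2 : 1 ≤ cod G y z := by
      unfold cod
      calc (1:ℝ) = adj G x y * adj G x z := by rw [hadj y hy, hadj z hz'.2]; norm_num
        _ ≤ ∑ u, adj G u y * adj G u z :=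
          Finset.single_le_sum (f := fun u => adj G u y * adj G u z)
            (fun u _ => mul_nonneg (adj_nonneg G _ _) (adj_nonneg G _ _)) (Finset.mem_univ x)
    have h3 := mul_nonneg h₁ (adj_nonneg G y z)
    nlinarith
  unfold Q
  calc c₂ * ((R.card : ℝ) * (R.card - 1)) = ∑ y ∈ R, c₂ * ((R.card : ℝ) - 1) := by
        rw [Finset.sum_const, nsmul_eq_mul]; ring
    _ ≤ _ := Finset.sum_le_sum key

end bounds

section main

variable {Δ : ℕ} (hΔ : 2 ≤ Δ) (hdeg : ∀ x, G.degree x ≤ Δ)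

/-- the test function with the right constants -/
noncomputable def h (G : SimpleGraph V) [DecidableRel G.Adj] (Δ : ℕ) (A : Finset V) : ℝ :=
  hf G (1 / (4 * Δ)) (1 / (4 * Δ ^ 2)) A

/-- decrement -/
noncomputable def du (G : SimpleGraph V) [DecidableRel G.Adj] (Δ : ℕ) (A : Finset V) (x : V) : ℝ :=
  h G Δ A - h G Δ (A.erase x)

/-- increment at a branching -/
noncomputable def dv (G : SimpleGraph V) [DecidableRel G.Adj] (Δ : ℕ) (A : Finset V) (x : V) : ℝ :=
  h G Δ (A.erase x ∪ G.neighborFinset x) - h G Δ (A.erase x)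

include hΔ hdeg

lemma ker_sum_le' (A : Finset V) (x : V) :
    ∑ y ∈ A, ker G (1 / (4 * Δ)) (1 / (4 * Δ ^ 2)) x y ≤ 1 / 2 := by
  have hΔ' : (0:ℝ) < Δ := by positivity
  refine (ker_sum_le G _ _ hdeg (by positivity) (by positivity) A x).trans ?_
  apply le_of_eq; field_simp; ring

lemma du_le (A : Finset V) {x : V} (hx : x ∈ A) : du G Δ A x ≤ 1 := by
  unfold du h
  rw [hf_erase G _ _ hx]
  have : 0 ≤ ∑ y ∈ A, ker G (1 / (4 * Δ)) (1 / (4 * Δ ^ 2)) x y :=
    Finset.sum_nonneg fun y _ => ker_nonneg G _ _ (by positivity) (by positivity) _ _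
  linarith

lemma du_ge (A : Finset V) {x : V} (hx : x ∈ A) : 0 ≤ du G Δ A x := by
  unfold du h
  rw [hf_erase G _ _ hx]
  have := ker_sum_le' G hΔ hdeg A x
  linarith

lemma dv_eq (A : Finset V) (x : V) : dv G Δ A x =
    (G.neighborFinset x \ A).card
      - Q G (1 / (4 * Δ)) (1 / (4 * Δ ^ 2)) (G.neighborFinset x \ A) (A.erase x)
      - Q G (1 / (4 * Δ)) (1 / (4 * Δ ^ 2)) (G.neighborFinset x \ A)
          (G.neighborFinset x \ A) / 2 := by
  unfold dv h
  rw [erase_union_nbhd, hf_union G _ _ (disj_erase_nbhd G A x)]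
  ring

lemma dv_nonneg (A : Finset V) (x : V) : 0 ≤ dv G Δ A x := by
  rw [dv_eq G hΔ hdeg]
  set R := G.neighborFinset x \ A with hR
  have h1 : Q G (1 / (4 * Δ)) (1 / (4 * Δ ^ 2)) R (A.erase x) ≤ R.card * (1/2) := by
    unfold Q
    rw [← nsmul_eq_mul, ← Finset.sum_const]
    exact Finset.sum_le_sum fun y _ => ker_sum_le' G hΔ hdeg _ y
  have h2 : Q G (1 / (4 * Δ)) (1 / (4 * Δ ^ 2)) R R ≤ R.card * (1/2) := by
    unfold Q
    rw [← nsmul_eq_mul, ← Finset.sum_const]
    exact Finset.sum_le_sum fun y _ => ker_sum_le' G hΔ hdeg _ y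
  have h3 : (0:ℝ) ≤ R.card := Nat.cast_nonneg _
  linarith

lemma dv_le (A : Finset V) (x : V) : dv G Δ A x ≤ Δ := by
  rw [dv_eq G hΔ hdeg]
  set R := G.neighborFinset x \ A with hR
  have h1 : 0 ≤ Q G (1 / (4 * Δ)) (1 / (4 * Δ ^ 2)) R (A.erase x) :=
    Finset.sum_nonneg fun y _ => Finset.sum_nonneg fun z _ =>
      ker_nonneg G _ _ (by positivity) (by positivity) _ _
  have h2 : 0 ≤ Q G (1 / (4 * Δ)) (1 / (4 * Δ ^ 2)) R R :=
    Finset.sum_nonneg fun y _ => Finset.sum_nonneg fun z _ =>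
      ker_nonneg G _ _ (by positivity) (by positivity) _ _
  have h3 : (R.card : ℝ) ≤ Δ := by
    have : R.card ≤ (G.neighborFinset x).card := Finset.card_le_card Finset.sdiff_subset
    rw [SimpleGraph.card_neighborFinset_eq_degree] at this
    exact_mod_cast this.trans (hdeg x)
  linarith

lemma h_nonneg (A : Finset V) : 0 ≤ h G Δ A := by
  unfold h hf
  have h2 : Q G (1 / (4 * Δ)) (1 / (4 * Δ ^ 2)) A A ≤ A.card * (1/2) := by
    unfold Q
    rw [← nsmul_eq_mul, ← Finset.sum_const]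
    exact Finset.sum_le_sum fun y _ => ker_sum_le' G hΔ hdeg _ y
  have h3 : (0:ℝ) ≤ A.card := Nat.cast_nonneg _
  linarith

/-- The drift of the test function for the exploration with branching probability `1/Δ`. -/
lemma drift (A : Finset V) :
    ∑ x ∈ A, (- du G Δ A x + (1 / Δ) * dv G Δ A x) ≤ - (1 / (8 * Δ ^ 2)) * A.card := by
  have hΔ' : (2:ℝ) ≤ Δ := by exact_mod_cast hΔ
  have hΔ0 : (0:ℝ) < Δ := by linarith
  set c₁ : ℝ := 1 / (4 * Δ) with hc₁
  set c₂ : ℝ := 1 / (4 * Δ ^ 2) with hc₂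
  have hc₁p : 0 < c₁ := by positivity
  have hc₂p : 0 < c₂ := by positivity
  have hcc : c₁ / Δ = c₂ := by rw [hc₁, hc₂]; field_simp
  set m : V → ℝ := fun x => nb G A x with hm
  have step : ∀ x ∈ A, - du G Δ A x + (1 / Δ) * dv G Δ A x ≤
      (-1 + c₁ * m x + (1 / Δ) * (G.degree x - m x)
        - (c₂ / (2 * Δ)) * (G.degree x * (G.degree x - 1) - 2 * G.degree x * m x))
      + c₂ * ∑ y ∈ A, (if x = y then (0:ℝ) else cod G x y)
      - c₂ * ∑ y ∈ G.neighborFinset x \ A, (m y - 1) := by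
    intro x hx
    have e1 : du G Δ A x = 1 - (c₁ * m x + c₂ * ∑ y ∈ A, (if x = y then (0:ℝ) else cod G x y)) := by
      unfold du h
      rw [hf_erase G _ _ hx]
      have : ∑ y ∈ A, ker G c₁ c₂ x y =
          c₁ * m x + c₂ * ∑ y ∈ A, (if x = y then (0:ℝ) else cod G x y) := by
        unfold ker
        rw [Finset.sum_add_distrib, ← Finset.mul_sum, ← Finset.mul_sum]; rfl
      rw [this]; ring
    have e2 := dv_eq G hΔ hdeg A x
    have e3 := Q_nbhd_erase G c₁ c₂ hc₁p.le hc₂p.le A hx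
    have e4 := Q_nbhd_self G c₁ c₂ hc₁p.le hc₂p.le A x
    rw [card_nbhd G A x] at e2 e4
    have hm0 : 0 ≤ m x := nb_nonneg G A x
    have e5 : c₂ * ((G.degree x:ℝ) * (G.degree x - 1) - 2 * G.degree x * m x) ≤
        Q G c₁ c₂ (G.neighborFinset x \ A) (G.neighborFinset x \ A) := by
      refine le_trans (mul_le_mul_of_nonneg_left ?_ hc₂p.le) e4
      change _ ≤ ((G.degree x : ℝ) - m x) * ((G.degree x : ℝ) - m x - 1)
      nlinarith
    have e6 : (1 / Δ) * dv G Δ A x ≤ (1 / Δ) * ((G.degree x - m x)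
        - c₁ * ∑ y ∈ G.neighborFinset x \ A, (m y - 1)
        - c₂ * ((G.degree x:ℝ) * (G.degree x - 1) - 2 * G.degree x * m x) / 2) := by
      refine mul_le_mul_of_nonneg_left ?_ (by positivity)
      rw [e2]
      change ((G.degree x : ℝ) - m x) - Q G c₁ c₂ _ _ - Q G c₁ c₂ _ _ / 2 ≤ _
      change c₁ * ∑ y ∈ G.neighborFinset x \ A, (m y - 1) ≤ _ at e3
      linarith
    rw [e1]
    have e7 : (1 / (Δ:ℝ)) * ((G.degree x - m x)
        - c₁ * ∑ y ∈ G.neighborFinset x \ A, (m y - 1)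
        - c₂ * ((G.degree x:ℝ) * (G.degree x - 1) - 2 * G.degree x * m x) / 2) =
        (1 / Δ) * (G.degree x - m x) - c₂ * ∑ y ∈ G.neighborFinset x \ A, (m y - 1)
        - (c₂ / (2 * Δ)) * (G.degree x * (G.degree x - 1) - 2 * G.degree x * m x) := by
      rw [← hcc]; field_simp
    rw [e7] at e6
    linarith
  refine (Finset.sum_le_sum step).trans ?_
  rw [Finset.sum_sub_distrib, Finset.sum_add_distrib, ← Finset.mul_sum, ← Finset.mul_sum,
    sum_cod_offdiag, sum_nbhd_compl]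
  have hsplit : ∑ z, nb G A z * (nb G A z - 1) =
      ∑ z ∈ A, nb G A z * (nb G A z - 1) + ∑ z ∈ Aᶜ, nb G A z * (nb G A z - 1) :=
    (Finset.sum_add_sum_compl A _).symm
  rw [hsplit]
  have hfin : ∑ x ∈ A, (-1 + c₁ * m x + (1 / Δ) * (G.degree x - m x)
        - (c₂ / (2 * Δ)) * (G.degree x * (G.degree x - 1) - 2 * G.degree x * m x))
      + c₂ * ∑ z ∈ A, nb G A z * (nb G A z - 1) ≤ - (1 / (8 * Δ ^ 2)) * A.card := by
    have hconst : - (1 / (8 * (Δ:ℝ) ^ 2)) * A.card = ∑ _x ∈ A, - (1 / (8 * (Δ:ℝ) ^ 2)) := by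
      rw [Finset.sum_const, nsmul_eq_mul]; ring
    rw [Finset.mul_sum, ← Finset.sum_add_distrib, hconst]
    refine Finset.sum_le_sum fun x _ => ?_
    change -1 + c₁ * m x + (1 / Δ) * (G.degree x - m x)
        - (c₂ / (2 * Δ)) * (G.degree x * (G.degree x - 1) - 2 * G.degree x * m x)
        + c₂ * (m x * (m x - 1)) ≤ _
    have hm0 : 0 ≤ m x := nb_nonneg G A x
    have hmΔ : m x ≤ Δ := nb_le G hdeg A x
    have hd0 : (0:ℝ) ≤ G.degree x := Nat.cast_nonneg _
    have hdΔ : (G.degree x : ℝ) ≤ Δ := by exact_mod_cast hdeg x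
    have a1 : m x * (c₁ - 1 / Δ + c₂ * (G.degree x / Δ) + c₂ * (m x - 1)) ≤ 0 := by
      apply mul_nonpos_of_nonneg_of_nonpos hm0
      have b1 : (G.degree x : ℝ) / Δ ≤ 1 := by rw [div_le_one hΔ0]; exact hdΔ
      have b2 : c₂ * (G.degree x / Δ) ≤ c₂ * 1 := mul_le_mul_of_nonneg_left b1 hc₂p.le
      have b3 : c₂ * (m x - 1) ≤ c₂ * (Δ - 1) := mul_le_mul_of_nonneg_left (by linarith) hc₂p.le
      have b4 : c₂ * Δ = c₁ := by rw [← hcc]; field_simp
      have b5 : c₁ ≤ 1 / Δ / 2 := by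
        rw [hc₁, div_div]; apply one_div_le_one_div_of_le (by positivity); linarith
      have b6 : (0:ℝ) < 1 / Δ := by positivity
      nlinarith
    have a2 : -1 + (1 / Δ) * (G.degree x : ℝ) - (c₂ / (2 * Δ)) * (G.degree x * (G.degree x - 1))
        ≤ - (1 / (8 * Δ ^ 2)) := by
      rcases (hdeg x).lt_or_eq with hlt | heq
      · have b1 : (G.degree x : ℝ) ≤ Δ - 1 := by
          have : G.degree x + 1 ≤ Δ := hlt
          have : ((G.degree x + 1 : ℕ) : ℝ) ≤ Δ := by exact_mod_cast this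
          push_cast at this; linarith
        have b2 : (1 / Δ) * (G.degree x : ℝ) ≤ (1 / Δ) * (Δ - 1) :=
          mul_le_mul_of_nonneg_left b1 (by positivity)
        have b3 : (1 / (Δ:ℝ)) * (Δ - 1) = 1 - 1 / Δ := by field_simp
        have b4 : 0 ≤ (c₂ / (2 * Δ)) * ((G.degree x:ℝ) * (G.degree x - 1)) := by
          apply mul_nonneg (by positivity)
          rcases Nat.eq_zero_or_pos (G.degree x) with h0 | h0
          · simp [h0]
          · have : (1:ℝ) ≤ G.degree x := by exact_mod_cast h0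
            apply mul_nonneg hd0; linarith
        have b5 : 1 / (8 * (Δ:ℝ) ^ 2) ≤ 1 / Δ := by
          apply one_div_le_one_div_of_le hΔ0
          nlinarith
        linarith
      · rw [heq]
        have b1 : (1 / (Δ:ℝ)) * Δ = 1 := by field_simp
        rw [b1]
        have b2 : (c₂ / (2 * Δ)) * ((Δ:ℝ) * (Δ - 1)) = (Δ - 1) / (8 * Δ ^ 2) := by
          rw [hc₂]; field_simp; ring
        rw [b2]
        have b3 : 1 / (8 * (Δ:ℝ) ^ 2) ≤ (Δ - 1) / (8 * Δ ^ 2) := by
          apply div_le_div_of_nonneg_right _ (by positivity); linarith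
        linarith
    have a3 : -1 + c₁ * m x + (1 / Δ) * (G.degree x - m x)
        - (c₂ / (2 * Δ)) * (G.degree x * (G.degree x - 1) - 2 * G.degree x * m x)
        + c₂ * (m x * (m x - 1)) =
        m x * (c₁ - 1 / Δ + c₂ * (G.degree x / Δ) + c₂ * (m x - 1)) +
        (-1 + (1 / Δ) * (G.degree x : ℝ) - (c₂ / (2 * Δ)) * (G.degree x * (G.degree x - 1))) := by
      field_simp; ring
    rw [a3]; linarith
  have hcomm : ∑ y ∈ Aᶜ, nb G A y * (nb G A y - 1) = ∑ y ∈ Aᶜ, m y * (m y - 1) := rfl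
  linarith

end main

end Pool.Agent.H999R2.HC
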